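import Pool.Agent.W345.SP.Stm

set_option autoImplicit false

open Set MeasureTheory

namespace Pool.Agent.W639.SP

open Pool.Agent.W345.SP

theorem lip_smul {V : Type} [NormedAddCommGroup V] [NormedSpace ℝ V] {C : ℝ} (hC : 0 < C) :
    LipschitzWith (Real.toNNReal C) (fun x : V => C • x) := by
  refine LipschitzWith.of_dist_le_mul fun x y => ?_
  rw [dist_eq_norm, dist_eq_norm, ← smul_sub, norm_smul, Real.norm_of_nonneg hC.le,
    Real.coe_toNNReal _ hC.le]

theorem two : S_NBV → S_EMB → S_BDD → S_VAR → S_TWO := by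
  rintro ⟨g, hg⟩ hE hB hV n U _
  obtain ⟨C, hC, hCb⟩ := hB g n hg
  refine ⟨fun x => C⁻¹ • FF g n x, ?_, ?_, ?_⟩
  · have h1 : Topology.IsEmbedding (FF g n) := hE g n hg.1
    have h2 : Topology.IsEmbedding
        (Homeomorph.smulOfNeZero (α := E (n + 2)) (C⁻¹ : ℝ) (inv_ne_zero hC.ne')) :=
      (Homeomorph.smulOfNeZero (α := E (n + 2)) (C⁻¹ : ℝ) (inv_ne_zero hC.ne')).isEmbedding
    exact (h2.comp h1).comp Topology.IsEmbedding.subtypeVal
  · intro x _
    rw [norm_smul, norm_inv, Real.norm_of_nonneg hC.le]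
    calc C⁻¹ * ‖FF g n x‖ ≤ C⁻¹ * C := mul_le_mul_of_nonneg_left (hCb x) (inv_nonneg.2 hC.le)
      _ = 1 := inv_mul_cancel₀ hC.ne'
  · intro a b γ hab hγ _ hfin
    by_cases htop : eVariationOn (fun t => C⁻¹ • FF g n (γ t)) (Icc a b) = ⊤
    · rw [htop]
      exact le_top
    · have h1 : eVariationOn (fun t => FF g n (γ t)) (Icc a b) ≠ ⊤ := by
        have h2 := (lip_smul (V := E (n + 2)) hC).lipschitzOnWith (s := univ)
          |>.comp_eVariationOn_le (g := fun t => C⁻¹ • FF g n (γ t)) (s := Icc a b)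
            (mapsTo_univ _ _)
        have h3 : ((fun x : E (n + 2) => C • x) ∘ fun t => C⁻¹ • FF g n (γ t)) =
            fun t => FF g n (γ t) := by
          funext t
          simp only [Function.comp_apply]
          rw [smul_smul, mul_inv_cancel₀ hC.ne', one_smul]
        rw [h3] at h2
        exact ne_top_of_le_ne_top (ENNReal.mul_ne_top ENNReal.coe_ne_top htop) h2
      rw [hV g n hg a b γ hab hγ hfin h1]
      exact zero_le

end Pool.Agent.W639.SP
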